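import Mathlib

namespace Pool.Agent.Results.MP_c10dfe_an.NotTrans

open Polynomial

/-- `A ≥ B`: `π ∘ A = B ∘ π` for a non-constant polynomial `π`. -/
def SemiConj (A B : ℂ[X]) : Prop := ∃ π : ℂ[X], 0 < π.natDegree ∧ π.comp A = B.comp π

theorem mult (Φ A π h : ℂ[X]) (p : ℂ) (hπ : 0 < π.natDegree) (e : π.comp Φ = A.comp π)
    (hp : Φ = C p + (X - C p) * h) :
    A.eval (π.eval p) = π.eval p ∧ ∃ k, 0 < k ∧ ∀ s : ℂ[X],
      A = C (π.eval p) + (X - C (π.eval p)) * s → h.eval p ^ k = s.eval (π.eval p) := by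
  have fp : Φ.eval p = p := by rw [hp]; simp
  have h0 : π - C (π.eval p) ≠ 0 := fun h => by
    rw [sub_eq_zero] at h
    rw [h, natDegree_C] at hπ
    exact lt_irrefl _ hπ
  obtain ⟨g, hg, hg'⟩ := exists_eq_pow_rootMultiplicity_mul_and_not_dvd _ h0 p
  have g0 : g.eval p ≠ 0 := fun h => hg' (dvd_iff_isRoot.2 h)
  refine ⟨by simpa [eval_comp, fp] using (congrArg (eval p) e).symm,
    rootMultiplicity p (π - C (π.eval p)),
    (rootMultiplicity_pos h0 (x := p)).2 (by simp), fun s hs => ?_⟩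
  generalize rootMultiplicity p (π - C (π.eval p)) = k at *
  generalize hq : π.eval p = q at hg hs ⊢
  have e1 : π = C q + (X - C p) ^ k * g := by rw [← hg]; ring
  have e2 : π.comp Φ = C q + (X - C p) ^ k * (h ^ k * g.comp Φ) := by
    conv_lhs => rw [e1]
    rw [add_comp, C_comp, mul_comp, pow_comp, sub_comp, X_comp, C_comp, ← mul_assoc, ← mul_pow]
    congr 3
    rw [hp]; ring
  have e3 : A.comp π = C q + (X - C p) ^ k * (g * s.comp π) := by
    rw [hs, add_comp, C_comp, mul_comp, sub_comp, X_comp, C_comp, hg, mul_assoc]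
  rw [e2, e3, add_right_inj] at e
  have e4 := congrArg (eval p) (mul_left_cancel₀ (pow_ne_zero k (X_sub_C_ne_zero p)) e)
  rw [eval_mul, eval_mul, eval_pow, eval_comp, eval_comp, fp, hq, mul_comm] at e4
  exact mul_left_cancel₀ g0 e4

theorem key (Φ h : ℂ[X]) (p ε : ℂ) (hε : ε ^ 2 = 1) (hp : Φ = C p + (X - C p) * h)
    (H : SemiConj Φ (C ε * (X ^ 3 + 2 * X))) :
    ∃ k, 0 < k ∧ (h.eval p ^ k = 2 * ε ∨ h.eval p ^ k = 3 - 4 * ε) := by
  obtain ⟨π, hπ, e⟩ := H
  obtain ⟨h1, k, hk, h2⟩ := mult Φ _ π h p hπ e hp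
  generalize π.eval p = q at h1 h2
  simp only [eval_mul, eval_C, eval_add, eval_pow, eval_X, eval_ofNat] at h1
  have h3 := h2 (C ε * (X ^ 2 + C q * X + C q ^ 2 + 2)) (by
    have : C q = C ε * (C q ^ 3 + 2 * C q) := by
      conv_lhs => rw [← h1]
      simp only [map_mul, map_add, map_pow, map_ofNat]
    linear_combination -this)
  simp only [eval_mul, eval_C, eval_add, eval_pow, eval_X, eval_ofNat] at h3
  refine ⟨k, hk, ?_⟩
  by_cases hq : q = 0
  · left; rw [h3, hq]; ring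
  · right
    have : ε * (q ^ 2 + 2) = 1 := mul_left_cancel₀ hq (by linear_combination h1)
    rw [h3]; linear_combination 3 * this

theorem result : ∃ P Q R φ ψ : ℂ[X], P.natDegree = 3 ∧ Q.natDegree = 3 ∧ R.natDegree = 3 ∧
    φ.natDegree = 3 ∧ ψ.natDegree = 3 ∧
    SemiConj φ P ∧ SemiConj φ R ∧ SemiConj ψ R ∧ SemiConj ψ Q ∧
    ¬ ∃ Φ : ℂ[X], SemiConj Φ P ∧ SemiConj Φ Q := by
  have dA : (X ^ 3 + 2 * X : ℂ[X]).natDegree = 3 := by compute_degree!
  have dB : (-(X ^ 3 + 2 * X) : ℂ[X]).natDegree = 3 := by rw [natDegree_neg, dA]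
  have d2 : 0 < (X ^ 2 : ℂ[X]).natDegree := by simp
  refine ⟨X ^ 3 + 2 * X, -(X ^ 3 + 2 * X), X ^ 3 + 4 * X ^ 2 + 4 * X, X ^ 3 + 2 * X,
    -(X ^ 3 + 2 * X), dA, dB, by compute_degree!, dA, dB, ⟨X, by simp, by simp⟩,
    ⟨X ^ 2, d2, by simp; ring⟩, ⟨X ^ 2, d2, by simp; ring⟩, ⟨X, by simp, by simp⟩, ?_⟩
  rintro ⟨Φ, H1, H2⟩
  have dΦ : Φ.natDegree = 3 := by
    obtain ⟨π, hπ, e⟩ := H1
    have := congrArg natDegree e
    rw [natDegree_comp, natDegree_comp, dA, mul_comm] at this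
    exact Nat.eq_of_mul_eq_mul_right hπ this
  have d1 : (Φ - X).natDegree = 3 := by
    rw [natDegree_sub_eq_left_of_natDegree_lt (by simp [dΦ]), dΦ]
  obtain ⟨p, hp⟩ := IsAlgClosed.exists_root (Φ - X)
    (fun h => by rw [natDegree_eq_of_degree_eq_some (n := 0) h] at d1; omega)
  obtain ⟨g, hg⟩ := dvd_iff_isRoot.2 hp
  have hΦ : Φ = C p + (X - C p) * (g + 1) := by linear_combination hg
  obtain ⟨k, hk, a⟩ := key Φ _ p 1 (by ring) hΦ (by simpa using H1)
  obtain ⟨l, hl, b⟩ := key Φ _ p (-1) (by ring) hΦ (by simpa using H2)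
  generalize (g + 1).eval p = μ at a b
  have n2 : ‖(2 : ℂ)‖ = 2 := by simp
  rcases a with a | a
  · have a' : ‖μ‖ ^ k = 2 := by rw [← norm_pow, a]; simp
    rcases b with b | b
    · have b' : ‖μ‖ ^ l = 2 := by rw [← norm_pow, b]; simp
      have h0 : 0 < ‖μ‖ := by
        rcases (norm_nonneg μ).eq_or_lt with h | h
        · rw [← h, zero_pow hk.ne'] at a'; norm_num at a'
        · exact h
      have h1 : ‖μ‖ ≠ 1 := fun h => by rw [h, one_pow] at a'; norm_num at a'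
      have := pow_right_injective₀ h0 h1 (a'.trans b'.symm)
      subst this
      rw [a] at b
      norm_num at b
    · have e : (2 : ℂ) ^ l = 7 ^ k := by
        have : (μ ^ k) ^ l = (μ ^ l) ^ k := by rw [← pow_mul, ← pow_mul, mul_comm]
        rw [a, b] at this
        convert this using 2 <;> norm_num
      have e' : (2 : ℕ) ^ l = 7 ^ k := by exact_mod_cast e
      have : (2 : ℕ) ∣ 7 ^ k := e' ▸ dvd_pow_self 2 hl.ne'
      exact absurd (Nat.prime_two.dvd_of_dvd_pow this) (by norm_num)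
  · have a' : ‖μ‖ ^ k = 1 := by rw [← norm_pow, a]; norm_num
    have h1 : ‖μ‖ = 1 := (pow_eq_one_iff_of_nonneg (norm_nonneg μ) hk.ne').1 a'
    have b' : ‖μ ^ l‖ = 1 := by rw [norm_pow, h1, one_pow]
    rcases b with b | b <;> rw [b] at b' <;> norm_num at b'

end Pool.Agent.Results.MP_c10dfe_an.NotTrans
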